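import Pool.Agent.T6.H77.DW.FIN
import Pool.Agent.T6.H77.DW.SCCNT
import Pool.Agent.T6.H77.DW.FW
import Pool.Agent.T6.H77.DW.C1FN
import Pool.Agent.T6.H77.DW.MX
import Pool.Agent.T6.H77.DW.FG
import Pool.Agent.T6.H77.DW.HU
import Pool.Agent.T6.H77.DW.LIFT
import Pool.Agent.T6.H77.DW.LINK
import Pool.Agent.T6.H77.DW.ESC
import Pool.Agent.T6.H77.DW.DEN
import Pool.Agent.T6.H77.DW.CLO
import Pool.Agent.T6.H77.DW.ENT

/-!
# Weak weak approximation for the diagonal hypersurfaces of bidegree (2, 2)

Let `K` be a field (a number field, say), `a_ij` (`i, j < 3`) elements of `K` and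
`X : F(x, y) = ∑ i, ∑ j, a_ij x_i² y_j² = 0` (`DW.fm`) in `P² × P²`, a Fano threefold; it is smooth
iff the entries, the `2 × 2` minors and the determinant of the matrix `a` are not zero. Let `L v`
(`v : ι`, any set of places) be valued fields over `K` such that `K` is dense in their product.
A place `v` is good (`DW.GoodPlace`) if `L v` is a complete ultrametric field with finite residue
field with at least `q₀` elements and odd characteristic, the `a_ij` are integral at `v`, and the
entries, the `2 × 2` minors and the determinant are units at `v`. Here `q₀` is an absolute constant.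

(1) Let `G` be a set of good places (finite or not), and let `T` in the product of all `X(L v)` be a
limit of `K`-points such that for all `v` both conics through `T v` are smooth (`DW.Ord`). Then every
`S` in the product of the `X(L v)` with `S v = T v` for all `v` outside `G` and with ARBITRARY
components `S v` in `X(L v)` for `v` in `G` (`DW.Pt`) is a limit of `K`-points.

(2) If all `v` are good, and `X` has a `K`-point both of whose components have at least two nonzero
coordinates (`DW.Ns`), then `X(K)` is dense in the product of the `X(L v)`.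

`DW.XK` is `X(K)` in the product; everything is on the level of the cones (nonzero vectors `x`, `y`).
-/

set_option autoImplicit false

namespace Pool.Agent.Results.MP_83e36b_nt.DiagonalThreefolds

open Pool.Agent.T6.H77

theorem result : ∃ q₀ : ℕ, ∀ (K ι : Type) [Field K] (L k : ι → Type)
    [∀ v, NontriviallyNormedField (L v)] [∀ v, Field (k v)] [∀ v, Fintype (k v)]
    (σ : ∀ v, K →+* L v) (π : ∀ v, L v → k v) (a : Fin 3 → Fin 3 → K),
    (DenseRange fun (b : K) (v : ι) => σ v b) →
    (∀ G : Set ι, (∀ v ∈ G, DW.GoodPlace q₀ (π v) fun i j => σ v (a i j)) →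
      ∀ T ∈ closure (DW.XK σ a), (∀ v, DW.Ord (fun i j => σ v (a i j)) (T v).1 (T v).2) →
      ∀ S : ∀ v, (Fin 3 → L v) × (Fin 3 → L v), (∀ v ∉ G, S v = T v) →
      (∀ v ∈ G, DW.Pt (fun i j => σ v (a i j)) (S v)) → S ∈ closure (DW.XK σ a)) ∧
    ((∀ v, DW.GoodPlace q₀ (π v) fun i j => σ v (a i j)) →
      ∀ x y : Fin 3 → K, DW.Ns x → DW.Ns y → DW.fm a x y = 0 →
      ∀ S : ∀ v, (Fin 3 → L v) × (Fin 3 → L v),
      (∀ v, DW.Pt (fun i j => σ v (a i j)) (S v)) → S ∈ closure (DW.XK σ a)) := by
  have hC1 : DW.StmC1 := DW.c1 DW.sc DW.cnt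
  exact DW.fin (DW.loc hC1 (DW.lift (DW.uu DW.hens)) (DW.fn hC1)
    (DW.esc DW.sc DW.fw (DW.uu DW.hens) (DW.lift (DW.uu DW.hens))) (DW.fg DW.sc hC1 DW.mx)
    (DW.link DW.hens)) (DW.den (DW.uu DW.hens)) DW.clo DW.ent

end Pool.Agent.Results.MP_83e36b_nt.DiagonalThreefolds
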