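import Pool.Agent.T6.H77.DC.MAIN
import Pool.Agent.T6.H77.DC.W2
import Pool.Agent.T6.H77.DC.FQ
import Pool.Agent.T6.H77.DC.LC
import Pool.Agent.T6.H77.DC.DEN
import Pool.Agent.T6.H77.DC.CLO

/-!
# Weak weak approximation for the double covers `w² = F(x_1, ..., x_n)` of `(P¹)^n`

Let `K` be a field (a number field, say), `n ≥ 1` and `F` a form of degree two in each of the `n`
vectors `x_i` of length two (`DC.fv`; `c` is the family of the `3^n` coefficients). The double cover
`X : w² = F(x_1, ..., x_n)` of `(P¹)^n`, branched in a divisor of multidegree `(2, ..., 2)`, is a Fano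
variety of dimension `n` for general `F`, with `n` structures of a conic bundle over `(P¹)^(n-1)`,
with discriminants of multidegree `(4, ..., 4)`. (`n = 2`: del Pezzo surfaces of degree four.)

Let `L v` (`v : ι`, any set of places) be valued fields over `K` such that `K` is dense in their
product. A place `v` is good (`DC.GoodPlace`) if `L v` is a complete ultrametric field with finite
residue field `k` with at least `q₀` elements (`q₀` depends only on `n`), odd characteristic, `F` is
integral at `v` and `F` mod `v` is good (`DC.Gd`): `X` mod `v` is smooth at its `k`-points, and for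
some `r`, `s`, `t` in `k^n` (we write `t_i` for the point `(1, t_i)`) the binary forms
`F(t_1, ..., t_j, ·, s_(j+2), ..., s_n)` and `F(t_1, ..., t_j, ·, r_(j+2), ..., r_n)` are not
proportional for all `j < n - 1`, and `F(t_1, ..., t_(n-1), ·)` has discriminant not zero.

Theorem. Let `G` be a set of good places (finite or infinite), `T` in the product of the `X(L v)` a
limit of `K`-points such that for `v` outside `G` the `n` conics through `T v` are smooth and
`w ≠ 0` at `T v` (`DC.Sm`; no condition at the places of `G`). Then every `S` with `S v = T v` for all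
`v` outside `G` and with ARBITRARY `S v` in `X(L v)` (`DC.On`) for `v` in `G` is a limit of
`K`-points (`DC.XK`).

In particular, if all `v` are good and `X(K)` is not empty, then `X(K)` is dense in the product of
the `X(L v)` (weak weak approximation). Points are vectors `(w, x_1, ..., x_n)`, all `x_i ≠ 0`.
-/

set_option autoImplicit false

namespace Pool.Agent.Results.MP_83e36b_nt.DoubleCoversOfProducts

open Pool.Agent.T6.H77

theorem result : ∀ n : ℕ, 0 < n → ∃ q₀ : ℕ, ∀ (K ι : Type) [Field K] (L k : ι → Type)
    [∀ v, NontriviallyNormedField (L v)] [∀ v, Field (k v)] [∀ v, Fintype (k v)]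
    (σ : ∀ v, K →+* L v) (π : ∀ v, L v → k v) (c : (Fin n → Fin 3) → K),
    (DenseRange fun (b : K) (v : ι) => σ v b) →
    ∀ G : Set ι, (∀ v ∈ G, DC.GoodPlace q₀ (π v) (fun α => σ v (c α))) →
    ∀ T ∈ closure (DC.XK σ c), (∀ v ∉ G, DC.Sm (fun α => σ v (c α)) (T v)) →
    ∀ S : ∀ v, L v × (Fin n → Fin 2 → L v), (∀ v ∉ G, S v = T v) →
    (∀ v ∈ G, DC.On (fun α => σ v (c α)) (S v)) → S ∈ closure (DC.XK σ c) :=
  DC.main (DC.loc (DC.fq DC.sel DC.w2) DC.lc) DC.den DC.clo

end Pool.Agent.Results.MP_83e36b_nt.DoubleCoversOfProducts
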