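import Pool.Agent.T6.H77.VR.CO
import Pool.Agent.T6.H77.VR.SQ
import Pool.Agent.T6.H77.VR.LN
import Pool.Agent.T6.H77.VR.WT
import Pool.Agent.T6.H77.VR.PT
import Pool.Agent.T6.H77.VR.CONN
import Pool.Agent.T6.H77.VR.GW
import Pool.Agent.T6.H77.VR.GX
import Pool.Agent.T6.H77.VR.QZ
import Pool.Agent.T6.H77.VR.FQ
import Pool.Agent.T6.H77.VR.LC
import Pool.Agent.T6.H77.VR.TR
import Pool.Agent.T6.H77.VR.NS
import Pool.Agent.T6.H77.VR.DEN
import Pool.Agent.T6.H77.VR.LOC
import Pool.Agent.T6.H77.VN.LFT
import Pool.Agent.T6.H77.VN.CO
import Pool.Agent.T6.H77.VN.PT
import Pool.Agent.T6.H77.VN.SZ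
import Pool.Agent.T6.H77.VN.TH
import Pool.Agent.T6.H77.VN.LB
import Pool.Agent.T6.H77.VN.NRM
import Pool.Agent.T6.H77.VN.ND
import Pool.Agent.T6.H77.VN.ESC
import Pool.Agent.T6.H77.VN.MEET
import Pool.Agent.T6.H77.VN.IND
import Pool.Agent.T6.H77.VN.DEN
import Pool.Agent.T6.H77.VN.CL
import Pool.Agent.T6.H77.VN.MAIN

/-!
# Weak weak approximation for general hypersurfaces of multidegree (2, ..., 2) in `(P²)ⁿ`, `n ≥ 2`

Let `K` be a field (a number field, say), `n ≥ 0`, and let `X : F(x_1, ..., x_{n+2}) = 0` in
`(P²)^{n+2}`, where `F` (`VN.Fn`) is a form of degree two in each of the `x_i`, with coefficients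
`t` which are symmetric (`VN.Sn`): any such form. A smooth `X` is a Fano variety of dimension
`2 n + 3` (of index one), with `n + 2` conic bundle structures over `(P²)^{n+1}`.

Let `L v` (`v : ι`, any set of places) be valued fields over `K` such that `K` is dense in their
product. A place `v` is good (`VN.GoodPlace`) if `L v` is a complete ultrametric field with finite
residue field `k` with at least `q₀` elements, `2 ≠ 0` in `k`, `F` is integral at `v`, the reduction
of `X` has a `k`-point such that all the conics through it are smooth, and the reduction is good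
(`VN.Gn`), which is defined by induction on the number of variables `x_i`:

For two variables, `VR.Gd` is a list of explicit conditions: `X` is smooth at its `k`-points; the
conics of each of the two families are not the plane, each has more than four points in common with
at most eight others, is singular at a given point for at most four of them; the derivatives of `F`
in the second variable are independent somewhere; one of the conics consists of two lines over
`k`, such that two polynomials (a discriminant of degree two and a resultant of degree eight on the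
line) and their product are not constants times squares. In addition (`VN.Nd`) there are smooth
conics in both families.

For more than two variables: `X` is smooth at its `k`-points, and for each `i` each line and each
conic in the plane has (up to the factor `q / (q - 1)`) at most `N` points `z`, such that the
hypersurface `X ∩ (x_i = z)` is not good.

For a general `X` over a number field almost all places are good (for a constant `N`, which depends
only on `n`), because the points `z` with a bad `X ∩ (x_i = z)` are on an irreducible curve of degree
at least four (for each divisor of bad forms) or in a finite set.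

Theorem. Let `G` be a set of good places (finite or infinite). Let `T` in the product of the `X(L v)`
be a limit of `K`-points such that for `v` outside `G` all the conics through `T v` are smooth
(`VN.Sm`; no condition on `T v` for `v` in `G`). Then every `S` with `S v = T v` for all `v` outside
`G` and with ARBITRARY `S v` in `X(L v)` for `v` in `G` is a limit of `K`-points.

In particular, if all `v` are good and `X(K)` is not empty, then `X(K)` is dense in the product of
the `X(L v)` (weak weak approximation). Points are families of nonzero vectors (the cone over `X`).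
-/

set_option autoImplicit false

namespace Pool.Agent.Results.MP_83e36b_nt.MultidegreeTwo

open Pool.Agent.T6.H77

theorem result (n N : ℕ) : ∃ q₀ : ℕ, ∀ (K ι : Type) [Field K] (L k : ι → Type)
    [∀ v, NontriviallyNormedField (L v)] [∀ v, Field (k v)] [∀ v, Fintype (k v)]
    (σ : ∀ v, K →+* L v) (π : ∀ v, L v → k v) (t : VN.Tm (Fin (n + 2)) K), VN.Sn t →
    (DenseRange fun (b : K) (v : ι) => σ v b) → ∀ G : Set ι,
    (∀ v ∈ G, VN.GoodPlace N q₀ n (π v) fun a => σ v (t a)) →
    ∀ T ∈ closure (VN.XK σ t), (∀ v ∉ G, VN.Sm (fun a => σ v (t a)) (T v)) →
    ∀ S : ∀ v, Fin (n + 2) → Fin 3 → L v, (∀ v ∉ G, S v = T v) →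
    (∀ v ∈ G, VN.Pt (fun a => σ v (t a)) (S v)) → S ∈ closure (VN.XK σ t) := by
  obtain ⟨q₀, h⟩ := VN.main
    (VN.ind (VN.lb (VR.loc VR.co VR.ns
        (VR.fq (VR.gx VR.co VR.qz) (VR.gw VR.sq VR.ln) (VR.con VR.wt VR.pt)) (VR.lc VR.tr1))
        (VR.den VR.co))
      (VN.esc VN.co VN.lft VN.nrm) (VN.meet VN.lft VN.pt VN.sz VN.th (VN.nd VN.th)))
    VN.den VN.cl VN.lft n N
  exact ⟨q₀, fun K ι _ L k _ _ _ σ π t => h (Fin (n + 2)) K ι L k σ π t
    (Fintype.card_fin _)⟩

end Pool.Agent.Results.MP_83e36b_nt.MultidegreeTwo
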