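import Pool.Agent.T6.H77.SQ.J

/-!
# Hypersurfaces with several structures of quadric bundles: the closure of the rational points

Let `X` be a hypersurface `F = 0` over a number field `K`, and let `V_1, …, V_s` be linear subspaces
over `K` of the vector space in which `X` lies, such that `F` has degree at most two on all the lines
with a direction in one of the `V_i`: all the sections of `X` by translates of `V_i` are quadrics.
Examples (`X` is the affine cone over the projective variety):

* the hypersurfaces of multidegree `(2, …, 2)` in a product `ℙ^{n_1} × ⋯ × ℙ^{n_s}` (with the `s`
  groups of variables as blocks): Fano varieties, hence rationally connected, if they are smooth and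
  all the `n_i` are at least `2`;
* the hypersurfaces of degree `d` in `ℙⁿ` which have multiplicity at least `d - 2` along `s` linear
  subspaces which are defined over `K` (for instance cubic hypersurfaces containing them);
* the double covers `y² = f(z)`, if `f` has degree at most two along some subspaces (the subspaces
  `V_i` contain the direction of `y`, so they are not independent); and similar varieties.

By the conjecture of Colliot-Thélène the closure `C` of `X(K)` in the product of the `X(K_v)`
(`v` in any set of places) is given by the Brauer-Manin conditions for a smooth compactification
which is rationally connected, so `C` contains the points near its points. We prove this near all the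
systems of points `T = (T_v)` in `C`, from which one can get by moves to systems of points which are
good in the following sense.

(a) The part of degree two of `F(T_v + w)`, `w ∈ V_i`, is not zero.
(b) The whole space can be obtained from blocks `V_i`, on which the differential of `F` at `T_v` is
not zero, by adding one after the other, such that the new block `V_i` is *linked* to the sum `W` of
the old ones: there are tangent vectors `ξ ∈ W` and `η ∈ V_i` of `X` at `T_v` with `D²F(ξ, η) ≠ 0` (the
second fundamental form), or the differential of `F` does not vanish on `W ∩ V_i`.

A move replaces `T_v` by the second point of a line through `T_v` with a direction in `V_i`, on which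
`F` has degree two.

**Theorem.** (1) Let `T = (T_v)` be such a system in `C`. There are neighbourhoods `U_v` of `T_v` for
all `v` (also if the set of the `v` is infinite), such that all the `(S_v)` with
`S_v ∈ X(K_v) ∩ U_v` belong to `C`. (2) In particular this holds for all the `K`-points of `X` from
which one gets by moves over `K` to a point with the properties (a), (b) over `K`, and for all sets of
places.

For `s = 2`, independent blocks and finite sets of places compare the starting result
`MP_12adaf_nt.BidegreeTwoTwo`. The fields `K_v` may be arbitrary complete valued fields such that `K`
is dense in their product (for a number field and different places this is weak approximation).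

Idea of the proof: two successive moves in `V_i` show that `C` contains, with a point near `T`, all
the small translates in the directions of `V_i` which are on `X`, uniformly near `T`. If this holds for
`W` and for `V_i`, then it holds for `W + V_i`: by the theorem on implicit functions one can go from
`T'` to `T' + w + v` by `v'`, `w'`, `v - v'`, `w - w'`, because the tangent spaces at `T` and at a near
point `T + w'` have different intersections with `V_i`. Finally the moves are local
homeomorphisms of `X` which preserve `C`.
-/

set_option autoImplicit false

namespace Pool.Agent.Results.MP_83e36b_nt.SeveralQuadricBundles

open MvPolynomial Pool.Agent.T6.H77.SQ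

/-- Let `F` be a polynomial over the field `K`.

(0) If the total degree of `F` in the variables of `B` is at most two, then `F` is quadratic along the
coordinate subspace of `B`.

Let `F` be quadratic along the subspaces `V i` (defined over `K`), and let the `L v` (`v ∈ ι`, a finite
or infinite set) be complete valued fields containing `K` such that `K` is dense in their product.

(1) Let `T` be in the closure of the set of the `K`-points of `X : F = 0` in the product of the sets of
the `L v`-points. If `T` is nice (joined by moves to a good system of points), then there are
neighbourhoods `U v` of the `T v`, such that all the `S` with `S v ∈ X(L v) ∩ U v` for all `v` belong to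
the closure.

(2) The conclusion of (1) holds for the `K`-points `z` of `X` which are nice over `K`. -/
theorem result {K α κ : Type} [Field K] [Fintype α] (F : MvPolynomial α K) :
    (∀ B : Finset α, (∀ m ∈ F.support, ∑ j ∈ B, m j ≤ 2) →
      QuadraticAlong F (block K (B : Set α))) ∧
    ∀ V : κ → Submodule K (α → K), (∀ i, QuadraticAlong F (V i)) →
      ∀ (ι : Type) (L : ι → Type) [∀ v, NontriviallyNormedField (L v)]
        [∀ v, CompleteSpace (L v)] (σ : ∀ v, K →+* L v),
        (DenseRange fun (a : K) (v : ι) => σ v a) →
        (∀ T ∈ closure (pts F σ),
          Nice (fun v => map (σ v) F) (fun i v => ext (σ v) (V i)) T → OpenAt F σ T) ∧
        ∀ z : α → K, eval z F = 0 →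
          Nice (L := fun _ : Unit => K) (fun _ => F) (fun i _ => V i) (fun _ => z) →
          OpenAt F σ (fun v i => σ v (z i)) := by
  refine ⟨fun B h => quadratic_block F B h, fun V hV ι L _ _ σ hσ => ⟨fun T hT hN =>
    open_nice hσ (fun i => (hV i).quad) hN hT, fun z hz hN => ?_⟩⟩
  exact open_nice hσ (fun i => (hV i).quad) (nice_map σ hN) (subset_closure ⟨z, hz, rfl⟩)

end Pool.Agent.Results.MP_83e36b_nt.SeveralQuadricBundles
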